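import Mathlib
import Pool.Agent.H59.L.S8.Y506.RG.Stm

/-!
# Project RG (helper506): from smooth weights to general log-concave ridge functions

`theorem apx (h1 : S_LIMW) (h2 : S_REG) : S_APX`.
-/

set_option autoImplicit false

namespace Pool.Agent.Y65.RG

open MeasureTheory Set Filter Topology
open scoped ENNReal InnerProductSpace
open Pool.Agent.W695.KH (Eu)
open Pool.Agent.Y506.RG

/-- `(1 + ‖x‖²) exp(-b ‖x‖²)` is integrable -/
theorem integrable_gauss {n : ℕ} {b : ℝ} (hb : 0 < b) :
    Integrable (fun x : Eu (Fin n) => (1 + ‖x‖ ^ 2) * Real.exp (-(b * ‖x‖ ^ 2))) := by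
  have h0 : Integrable (fun x : Eu (Fin n) => Real.exp (-(b / 2 * ‖x‖ ^ 2))) := by
    have h := GaussianFourier.integrable_cexp_neg_mul_sq_norm_add (V := Eu (Fin n))
      (b := ((b / 2 : ℝ) : ℂ)) (by simpa using (by positivity : 0 < b / 2)) 0 0
    refine h.norm.congr (Filter.Eventually.of_forall fun x => ?_)
    simp only [Complex.norm_exp]
    congr 1
    have : (-((b / 2 : ℝ) : ℂ) * (‖x‖ : ℂ) ^ 2 + 0 * ((⟪(0 : Eu (Fin n)), x⟫_ℝ : ℝ) : ℂ)) =
        ((-(b / 2 * ‖x‖ ^ 2) : ℝ) : ℂ) := by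
      push_cast; ring
    rw [this, Complex.ofReal_re]
  have hc : Continuous (fun x : Eu (Fin n) => (1 + ‖x‖ ^ 2) * Real.exp (-(b * ‖x‖ ^ 2))) := by
    fun_prop
  refine (h0.const_mul (max 1 (2 / b))).mono' hc.aestronglyMeasurable
    (Filter.Eventually.of_forall fun x => ?_)
  rw [Real.norm_of_nonneg (by positivity)]
  have h1 : (1 + ‖x‖ ^ 2) ≤ max 1 (2 / b) * Real.exp (b / 2 * ‖x‖ ^ 2) := by
    have h2 : b / 2 * ‖x‖ ^ 2 + 1 ≤ Real.exp (b / 2 * ‖x‖ ^ 2) := Real.add_one_le_exp _
    have h3 : max 1 (2 / b) * (b / 2 * ‖x‖ ^ 2 + 1) ≤ max 1 (2 / b) * Real.exp (b / 2 * ‖x‖ ^ 2) :=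
      mul_le_mul_of_nonneg_left h2 (by positivity)
    have h4 : (1 : ℝ) ≤ max 1 (2 / b) := le_max_left _ _
    have h5 : (1 : ℝ) ≤ max 1 (2 / b) * (b / 2) := by
      calc (1 : ℝ) = 2 / b * (b / 2) := by field_simp
        _ ≤ max 1 (2 / b) * (b / 2) := mul_le_mul_of_nonneg_right (le_max_right _ _) (by positivity)
    nlinarith [sq_nonneg ‖x‖]
  calc (1 + ‖x‖ ^ 2) * Real.exp (-(b * ‖x‖ ^ 2))
      ≤ (max 1 (2 / b) * Real.exp (b / 2 * ‖x‖ ^ 2)) * Real.exp (-(b * ‖x‖ ^ 2)) :=
        mul_le_mul_of_nonneg_right h1 (Real.exp_pos _).le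
    _ = max 1 (2 / b) * Real.exp (-(b / 2 * ‖x‖ ^ 2)) := by
        rw [mul_assoc, ← Real.exp_add]
        congr 2
        ring

section

variable {N n : ℕ} (ell : Eu (Fin n) →ₗ[ℝ] Eu (Fin N))

theorem cont_ell (i : Fin N) : Continuous fun x => ell x i := by
  have h1 : Continuous ell := LinearMap.continuous_of_finiteDimensional ell
  exact (continuous_apply i).comp ((PiLp.continuous_ofLp 2 _).comp h1)

/-- the `i`-th functional -/
noncomputable def fn (i : Fin N) : Eu (Fin n) →ₗ[ℝ] ℝ where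
  toFun x := ell x i
  map_add' x y := by simp
  map_smul' c x := by simp

theorem ae_ell (hnz : ∀ i, ∃ x, ell x i ≠ 0) (i : Fin N) {s : Set ℝ} (hs : MeasurableSet s)
    (h : ∀ᵐ y : ℝ, y ∈ s) : ∀ᵐ x, ell x i ∈ s := by
  have hsurj : Function.Surjective (fn ell i) := by
    obtain ⟨x, hx⟩ := hnz i
    intro y
    refine ⟨(y / ell x i) • x, ?_⟩
    simp only [fn, LinearMap.coe_mk, AddHom.coe_mk, map_smul, PiLp.smul_apply, smul_eq_mul]
    field_simp
  exact (ae_comp_linearMap_mem_iff (fn ell i) volume volume hsurj hs).2 h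

/-- comparison of the norms -/
theorem ell_low (hinj : ∀ x, ell x = 0 → x = 0) :
    ∃ κ : ℝ, 0 < κ ∧ ∀ x, κ * ‖x‖ ^ 2 ≤ ‖ell x‖ ^ 2 := by
  obtain ⟨K, hK, hA⟩ := LinearMap.exists_antilipschitzWith ell
    (LinearMap.ker_eq_bot'.2 hinj)
  have hK' : (0 : ℝ) < K := by exact_mod_cast hK
  refine ⟨1 / (K : ℝ) ^ 2, by positivity, fun x => ?_⟩
  have h := hA.le_mul_dist x 0
  simp only [dist_zero_right, map_zero] at h
  have h2 : ‖x‖ ^ 2 ≤ (K : ℝ) ^ 2 * ‖ell x‖ ^ 2 := by
    rw [← mul_pow]
    exact pow_le_pow_left₀ (norm_nonneg _) h 2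
  rw [div_mul_eq_mul_div, one_mul, div_le_iff₀ (by positivity)]
  linarith

/-- the dominating function is integrable -/
theorem int_dom (hinj : ∀ x, ell x = 0 → x = 0) (R : ℝ) (K : Fin N → ℝ) (hK : ∀ i, 0 < K i) :
    Integrable (fun x => (1 + ‖x‖ ^ 2) *
      ∏ i, (K i * Real.exp (-(max 0 (|ell x i| - R)) ^ 2 / 2))) := by
  obtain ⟨κ, hκ, hlow⟩ := ell_low ell hinj
  have h0 := (integrable_gauss (n := n) (b := κ / 4) (by positivity)).const_mul
    ((∏ i, K i) * Real.exp (N * (R ^ 2 / 2)))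
  have hc : Continuous (fun x => (1 + ‖x‖ ^ 2) *
      ∏ i, (K i * Real.exp (-(max 0 (|ell x i| - R)) ^ 2 / 2))) := by
    refine Continuous.mul (by fun_prop) (continuous_finset_prod _ fun i _ => ?_)
    have := cont_ell ell i
    fun_prop
  refine h0.mono' hc.aestronglyMeasurable (Filter.Eventually.of_forall fun x => ?_)
  have hprod : 0 ≤ ∏ i, (K i * Real.exp (-(max 0 (|ell x i| - R)) ^ 2 / 2)) :=
    Finset.prod_nonneg fun i _ => mul_nonneg (hK i).le (Real.exp_pos _).le
  rw [Real.norm_of_nonneg (mul_nonneg (by positivity) hprod)]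
  have h1 : ∏ i, (K i * Real.exp (-(max 0 (|ell x i| - R)) ^ 2 / 2)) ≤
      (∏ i, K i) * (Real.exp (N * (R ^ 2 / 2)) * Real.exp (-(κ / 4 * ‖x‖ ^ 2))) := by
    rw [Finset.prod_mul_distrib]
    refine mul_le_mul_of_nonneg_left ?_ (Finset.prod_nonneg fun i _ => (hK i).le)
    rw [← Real.exp_sum, ← Real.exp_add]
    refine Real.exp_le_exp.2 ?_
    have h2 : ∀ i, -(max 0 (|ell x i| - R)) ^ 2 / 2 ≤ R ^ 2 / 2 - (ell x i) ^ 2 / 4 := by
      intro i
      have h3 : |ell x i| ≤ max 0 (|ell x i| - R) + |R| := by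
        have := le_max_right 0 (|ell x i| - R)
        have := le_abs_self R
        linarith
      have h4 : (ell x i) ^ 2 ≤ (max 0 (|ell x i| - R) + |R|) ^ 2 := by
        rw [← sq_abs (ell x i)]
        exact pow_le_pow_left₀ (abs_nonneg _) h3 2
      nlinarith [sq_nonneg (max 0 (|ell x i| - R) - |R|), sq_abs R]
    calc ∑ i, -(max 0 (|ell x i| - R)) ^ 2 / 2
        ≤ ∑ i, (R ^ 2 / 2 - (ell x i) ^ 2 / 4) := Finset.sum_le_sum fun i _ => h2 i
      _ = N * (R ^ 2 / 2) - ‖ell x‖ ^ 2 / 4 := by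
          rw [Finset.sum_sub_distrib, Finset.sum_const, Finset.card_univ, Fintype.card_fin,
            nsmul_eq_mul, ← Finset.sum_div, EuclideanSpace.real_norm_sq_eq]
      _ ≤ N * (R ^ 2 / 2) + -(κ / 4 * ‖x‖ ^ 2) := by
          have := hlow x
          linarith
  calc (1 + ‖x‖ ^ 2) * ∏ i, (K i * Real.exp (-(max 0 (|ell x i| - R)) ^ 2 / 2))
      ≤ (1 + ‖x‖ ^ 2) * ((∏ i, K i) * (Real.exp (N * (R ^ 2 / 2)) *
        Real.exp (-(κ / 4 * ‖x‖ ^ 2)))) := mul_le_mul_of_nonneg_left h1 (by positivity)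
    _ = _ := by ring

theorem GD.continuous {h : ℝ → ℝ} (hh : GD h) : Continuous h := by
  obtain ⟨V', A, -, hV, -⟩ := hh.pot
  have h1 : Continuous (fun s => -Real.log (h s)) :=
    continuous_iff_continuousAt.2 fun s => (hV s).continuousAt
  have h2 : h = fun s => Real.exp (-(-Real.log (h s))) := by
    funext s
    rw [neg_neg, Real.exp_log (hh.pos s)]
  rw [h2]
  exact Real.continuous_exp.comp h1.neg

/-- Step 1 : bounded factors with bounded supports -/
theorem step1 (h1 : S_LIMW) (h2 : S_REG) {c : ℝ} (hc : 0 ≤ c)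
    (hinj : ∀ x, ell x = 0 → x = 0) (hnz : ∀ i, ∃ x, ell x i ≠ 0)
    (hS : ∀ H : Fin N → ℝ → ℝ, (∀ i, GD (H i)) → Star c fun x => ∏ i, H i (ell x i))
    (R : ℝ) (hR : 0 < R) (h : Fin N → ℝ → ℝ) (hl : ∀ i, LC1 (h i)) (hb : ∀ i s, h i s ≤ R)
    (hs : ∀ i s, R < |s| → h i s = 0)
    (hint : Integrable (fun x => (1 + ‖x‖ ^ 2) * ∏ i, h i (ell x i)))
    (hpos : 0 < ∫ x, ∏ i, h i (ell x i)) : Star c fun x => ∏ i, h i (ell x i) := by
  classical
  have hint1 : ∀ i, Integrable (h i) := by
    intro i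
    have h3 : h i = (Icc (-R) R).indicator (h i) := by
      funext s
      by_cases hs' : s ∈ Icc (-R) R
      · rw [indicator_of_mem hs']
      · rw [indicator_of_notMem hs']
        apply hs i s
        by_contra hcon
        exact hs' (abs_le.1 (not_lt.1 hcon))
    rw [h3, integrable_indicator_iff measurableSet_Icc]
    refine Measure.integrableOn_of_bounded (M := R) ?_ (hl i).meas.aestronglyMeasurable ?_
    · rw [Real.volume_Icc]; exact ENNReal.ofReal_ne_top
    · refine Filter.Eventually.of_forall fun s => ?_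
      rw [Real.norm_of_nonneg ((hl i).nonneg s)]
      exact hb i s
  have hpos1 : ∀ i, 0 < ∫ s, h i s := by
    intro i
    rcases (integral_nonneg (f := h i) (hl i).nonneg).lt_or_eq with h3 | h3
    · exact h3
    exfalso
    have h4 : h i =ᵐ[volume] 0 :=
      (integral_eq_zero_iff_of_nonneg (hl i).nonneg (hint1 i)).1 h3.symm
    have h5 : ∀ᵐ x, ell x i ∈ (h i) ⁻¹' {0} :=
      ae_ell ell hnz i ((hl i).meas (measurableSet_singleton 0)) h4
    have h6 : (fun x => ∏ i, h i (ell x i)) =ᵐ[volume] 0 := by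
      filter_upwards [h5] with x hx
      exact Finset.prod_eq_zero (Finset.mem_univ i) hx
    rw [integral_congr_ae h6] at hpos
    simp at hpos
  choose H K hK hGD hbd E hE hlim using fun i => h2 (h i) R (hl i) hR (hs i) (hpos1 i)
  have hdom := int_dom ell hinj R K hK
  have hHpos : ∀ i j s, 0 ≤ H i j s := fun i j s => ((hGD i j).pos s).le
  have hWle : ∀ j x, ∏ i, H i j (ell x i) ≤
      ∏ i, (K i * Real.exp (-(max 0 (|ell x i| - R)) ^ 2 / 2)) := fun j x =>
    Finset.prod_le_prod (fun i _ => hHpos i j _) fun i _ => hbd i j _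
  have hWpos : ∀ j x, 0 ≤ ∏ i, H i j (ell x i) := fun j x =>
    Finset.prod_nonneg fun i _ => hHpos i j _
  have hwpos : ∀ x, 0 ≤ ∏ i, h i (ell x i) := fun x =>
    Finset.prod_nonneg fun i _ => (hl i).nonneg _
  have hWc : ∀ j, Continuous fun x => ∏ i, H i j (ell x i) := fun j =>
    continuous_finset_prod _ fun i _ => (GD.continuous (hGD i j)).comp (cont_ell ell i)
  have hwm : Measurable fun x => ∏ i, h i (ell x i) :=
    Finset.measurable_prod _ fun i _ => (hl i).meas.comp (cont_ell ell i).measurable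
  have hae : ∀ᵐ x, ∀ i, ell x i ∉ E i := by
    rw [ae_all_iff]
    intro i
    exact ae_ell ell hnz i (hE i).measurableSet.compl ((hE i).countable.ae_notMem volume)
  refine h1 n c _ (fun j x => ∏ i, H i j (ell x i)) hc hint hpos ?_ ?_ ?_
  · intro j
    have hcc : Continuous fun x : Eu (Fin n) => (1 + ‖x‖ ^ 2) * ∏ i, H i j (ell x i) :=
      Continuous.mul (by fun_prop) (hWc j)
    refine hdom.mono' hcc.aestronglyMeasurable (Filter.Eventually.of_forall fun x => ?_)
    rw [Real.norm_of_nonneg (mul_nonneg (by positivity) (hWpos j x))]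
    exact mul_le_mul_of_nonneg_left (hWle j x) (by positivity)
  · have h0 : (0 : ℝ) = ∫ _x : Eu (Fin n), (0 : ℝ) := by simp
    rw [h0]
    refine tendsto_integral_of_dominated_convergence
      (fun x => (1 + ‖x‖ ^ 2) * ∏ i, (K i * Real.exp (-(max 0 (|ell x i| - R)) ^ 2 / 2)) +
        (1 + ‖x‖ ^ 2) * ∏ i, h i (ell x i)) ?_ (hdom.add hint) ?_ ?_
    · intro j
      have hm : Measurable fun x : Eu (Fin n) =>
          (1 + ‖x‖ ^ 2) * |∏ i, H i j (ell x i) - ∏ i, h i (ell x i)| := by
        refine Measurable.mul (by fun_prop) ?_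
        exact (continuous_abs.measurable.comp ((hWc j).measurable.sub hwm))
      exact hm.aestronglyMeasurable
    · intro j
      refine Filter.Eventually.of_forall fun x => ?_
      rw [Real.norm_of_nonneg (by positivity), ← mul_add]
      refine mul_le_mul_of_nonneg_left ?_ (by positivity)
      have := hWle j x
      have := hWpos j x
      have := hwpos x
      rw [abs_le]
      constructor <;> linarith
    · filter_upwards [hae] with x hx
      have h3 : Tendsto (fun j => ∏ i, H i j (ell x i)) atTop (𝓝 (∏ i, h i (ell x i))) :=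
        tendsto_finset_prod _ fun i _ => hlim i _ (hx i)
      have h4 : Tendsto (fun j => (1 + ‖x‖ ^ 2) * |∏ i, H i j (ell x i) - ∏ i, h i (ell x i)|)
          atTop (𝓝 ((1 + ‖x‖ ^ 2) * |∏ i, h i (ell x i) - ∏ i, h i (ell x i)|)) :=
        (h3.sub_const _).abs.const_mul _
      simpa using h4
  · exact Filter.Eventually.of_forall fun j => hS (fun i => H i j) fun i => hGD i j

end

/-- truncation -/
noncomputable def tr (R : ℝ) (h : ℝ → ℝ) (s : ℝ) : ℝ := if |s| ≤ R then min (h s) R else 0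

theorem tr_le {R : ℝ} {h : ℝ → ℝ} (h0 : ∀ s, 0 ≤ h s) (s : ℝ) : tr R h s ≤ h s := by
  unfold tr
  split_ifs
  · exact min_le_left _ _
  · exact h0 s

theorem tr_nonneg {R : ℝ} (hR : 0 ≤ R) {h : ℝ → ℝ} (h0 : ∀ s, 0 ≤ h s) (s : ℝ) :
    0 ≤ tr R h s := by
  unfold tr
  split_ifs
  · exact le_min (h0 s) hR
  · exact le_rfl

theorem tr_lc {R : ℝ} (hR : 0 ≤ R) {h : ℝ → ℝ} (hh : LC1 h) : LC1 (tr R h) := by
  refine ⟨tr_nonneg hR hh.nonneg, ?_, ?_⟩
  · unfold tr
    exact Measurable.ite (measurableSet_le (by fun_prop) measurable_const)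
      (hh.meas.min measurable_const) measurable_const
  · intro x y t ht0 ht1
    by_cases hx : |x| ≤ R
    · by_cases hy : |y| ≤ R
      · have hz : |(1 - t) * x + t * y| ≤ R := by
          rw [abs_le] at hx hy ⊢
          constructor <;> nlinarith
        simp only [tr, if_pos hx, if_pos hy, if_pos hz]
        have hx0 := le_min (hh.nonneg x) hR
        have hy0 := le_min (hh.nonneg y) hR
        refine le_min ?_ ?_
        · refine le_trans ?_ (hh.lc x y t ht0 ht1)
          exact mul_le_mul (Real.rpow_le_rpow hx0 (min_le_left _ _) (by linarith))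
            (Real.rpow_le_rpow hy0 (min_le_left _ _) ht0.le) (Real.rpow_nonneg hy0 _)
            (Real.rpow_nonneg (hh.nonneg x) _)
        · have h3 : R ^ (1 - t) * R ^ t = R := by
            rcases hR.lt_or_eq with h4 | h4
            · rw [← Real.rpow_add h4]; simp
            · rw [← h4, Real.zero_rpow ht0.ne']; simp
          calc min (h x) R ^ (1 - t) * min (h y) R ^ t ≤ R ^ (1 - t) * R ^ t :=
                mul_le_mul (Real.rpow_le_rpow hx0 (min_le_right _ _) (by linarith))
                  (Real.rpow_le_rpow hy0 (min_le_right _ _) ht0.le) (Real.rpow_nonneg hy0 _)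
                  (Real.rpow_nonneg hR _)
            _ = R := h3
      · have h3 : tr R h y = 0 := by simp only [tr, if_neg hy]
        rw [h3, Real.zero_rpow ht0.ne', mul_zero]
        exact tr_nonneg hR hh.nonneg _
    · have h3 : tr R h x = 0 := by simp only [tr, if_neg hx]
      rw [h3, Real.zero_rpow (by linarith), zero_mul]
      exact tr_nonneg hR hh.nonneg _

/-- **from smooth weights to general log-concave ridge functions** -/
theorem apx (h1 : S_LIMW) (h2 : S_REG) : S_APX := by
  classical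
  intro N n c ell hc hinj hnz hS h hl hint hpos
  set w : Eu (Fin n) → ℝ := fun x => ∏ i, h i (ell x i) with hw
  let W : ℕ → Eu (Fin n) → ℝ := fun j x => ∏ i, tr (j + 1) (h i) (ell x i)
  have hwpos : ∀ x, 0 ≤ w x := fun x => Finset.prod_nonneg fun i _ => (hl i).nonneg _
  have hWpos : ∀ j x, 0 ≤ W j x := fun j x =>
    Finset.prod_nonneg fun i _ => tr_nonneg (by positivity) (hl i).nonneg _
  have hWle : ∀ j x, W j x ≤ w x := fun j x =>
    Finset.prod_le_prod (fun i _ => tr_nonneg (by positivity) (hl i).nonneg _)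
      fun i _ => tr_le (hl i).nonneg _
  have hwm : Measurable w :=
    Finset.measurable_prod _ fun i _ => (hl i).meas.comp (cont_ell ell i).measurable
  have hWm : ∀ j, Measurable (W j) := fun j =>
    Finset.measurable_prod _ fun i _ =>
      (tr_lc (by positivity) (hl i)).meas.comp (cont_ell ell i).measurable
  have hWint : ∀ j, Integrable (fun x => (1 + ‖x‖ ^ 2) * W j x) := by
    intro j
    refine hint.mono' (Measurable.mul (by fun_prop) (hWm j)).aestronglyMeasurable
      (Filter.Eventually.of_forall fun x => ?_)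
    rw [Real.norm_of_nonneg (mul_nonneg (by positivity) (hWpos j x))]
    exact mul_le_mul_of_nonneg_left (hWle j x) (by positivity)
  have hev : ∀ x, ∀ᶠ j : ℕ in atTop, W j x = w x := by
    intro x
    have h3 : ∀ i, ∀ᶠ j : ℕ in atTop, tr (j + 1) (h i) (ell x i) = h i (ell x i) := by
      intro i
      obtain ⟨m, hm⟩ := exists_nat_ge (max |ell x i| (h i (ell x i)))
      filter_upwards [eventually_ge_atTop m] with j hj
      have hj' : (m : ℝ) ≤ j := by exact_mod_cast hj
      have h4 : |ell x i| ≤ (j : ℝ) + 1 := by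
        have := le_max_left |ell x i| (h i (ell x i))
        linarith
      have h5 : h i (ell x i) ≤ (j : ℝ) + 1 := by
        have := le_max_right |ell x i| (h i (ell x i))
        linarith
      simp only [tr, if_pos h4, min_eq_left h5]
    filter_upwards [Filter.eventually_all.2 h3] with j hj
    exact Finset.prod_congr rfl fun i _ => hj i
  have hlim1 : Tendsto (fun j => ∫ x, (1 + ‖x‖ ^ 2) * |W j x - w x|) atTop (𝓝 0) := by
    have h0 : (0 : ℝ) = ∫ _x : Eu (Fin n), (0 : ℝ) := by simp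
    rw [h0]
    refine tendsto_integral_of_dominated_convergence
      (fun x => (1 + ‖x‖ ^ 2) * w x) ?_ hint ?_ ?_
    · intro j
      exact (Measurable.mul (by fun_prop)
        (continuous_abs.measurable.comp ((hWm j).sub hwm))).aestronglyMeasurable
    · intro j
      refine Filter.Eventually.of_forall fun x => ?_
      rw [Real.norm_of_nonneg (by positivity)]
      refine mul_le_mul_of_nonneg_left ?_ (by positivity)
      have := hWle j x
      have := hWpos j x
      have := hwpos x
      rw [abs_le]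
      constructor <;> linarith
    · refine Filter.Eventually.of_forall fun x => ?_
      refine tendsto_const_nhds.congr' ?_
      filter_upwards [hev x] with j hj
      rw [hj]; simp
  have hlim2 : Tendsto (fun j => ∫ x, W j x) atTop (𝓝 (∫ x, w x)) := by
    refine tendsto_integral_of_dominated_convergence
      (fun x => (1 + ‖x‖ ^ 2) * w x) (fun j => (hWm j).aestronglyMeasurable) hint ?_ ?_
    · intro j
      refine Filter.Eventually.of_forall fun x => ?_
      rw [Real.norm_of_nonneg (hWpos j x)]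
      refine (hWle j x).trans ?_
      nlinarith [hwpos x, sq_nonneg ‖x‖]
    · refine Filter.Eventually.of_forall fun x => ?_
      refine tendsto_const_nhds.congr' ?_
      filter_upwards [hev x] with j hj
      rw [hj]
  refine h1 n c w W hc hint hpos hWint hlim1 ?_
  have hpos2 : ∀ᶠ j in atTop, 0 < ∫ x, W j x := hlim2.eventually (lt_mem_nhds hpos)
  filter_upwards [hpos2] with j hj
  refine step1 ell h1 h2 hc hinj hnz hS ((j : ℝ) + 1) (by positivity)
    (fun i => tr ((j : ℝ) + 1) (h i)) (fun i => tr_lc (by positivity) (hl i)) ?_ ?_ (hWint j) hj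
  · intro i s
    simp only [tr]
    split_ifs
    · exact min_le_right _ _
    · positivity
  · intro i s hs
    simp only [tr, if_neg (not_le.2 hs)]

end Pool.Agent.Y65.RG
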